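import Pool.Agent.Y35.VR.Stm

set_option autoImplicit false

/-!
Finite index subgroups and characters from an action with a commuting free action of the integers.
-/

namespace Pool.Agent.Y74.VR

open Pool.Agent.Y35.VR

/-- A homomorphism to the integers on a subgroup of finite index which is not trivial at `g`. -/
theorem vr_of_hom {G : Type} [Group G] (K : Subgroup G) (hK : K.FiniteIndex) (Ψ : K →* Zz) (g : G)
    (hg : g ∈ K) (h1 : Ψ ⟨g, hg⟩ ≠ 1) : IsVR (Subgroup.zpowers g) := by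
  set c : ℤ := Multiplicative.toAdd (Ψ ⟨g, hg⟩) with hc
  have hc0 : c ≠ 0 := fun h => h1 (Multiplicative.toAdd.injective h)
  have : NeZero c.natAbs := ⟨Int.natAbs_ne_zero.2 hc0⟩
  set F : K →* Multiplicative (ZMod c.natAbs) :=
    (AddMonoidHom.toMultiplicative (Int.castAddHom (ZMod c.natAbs))).comp Ψ with hF
  have hmem : ∀ k : K, k ∈ F.ker ↔ c ∣ Multiplicative.toAdd (Ψ k) := by
    intro k
    rw [MonoidHom.mem_ker]
    have e1 : F k = Multiplicative.ofAdd ((Multiplicative.toAdd (Ψ k) : ℤ) : ZMod c.natAbs) := rfl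
    rw [e1, ← ofAdd_zero, Multiplicative.ofAdd.injective.eq_iff, ZMod.intCast_zmod_eq_zero_iff_dvd,
      Int.natAbs_dvd]
  have hle : F.ker.map K.subtype ≤ K := Subgroup.map_subtype_le _
  have hdiv : ∀ x : G, ∀ hx : x ∈ F.ker.map K.subtype,
      c ∣ Multiplicative.toAdd (Ψ ⟨x, hle hx⟩) := by
    rintro x ⟨k, hk, rfl⟩
    exact (hmem k).1 hk
  have hz : Subgroup.zpowers g ≤ F.ker.map K.subtype := by
    rw [Subgroup.zpowers_le]
    exact ⟨⟨g, hg⟩, (hmem _).2 dvd_rfl, rfl⟩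
  have hfi : (F.ker.map K.subtype).FiniteIndex := by
    refine ⟨?_⟩
    rw [Subgroup.index_map_subtype]
    exact mul_ne_zero Subgroup.FiniteIndex.index_ne_zero hK.index_ne_zero
  refine ⟨F.ker.map K.subtype, hz,
    { toFun := fun x => ⟨g ^ (Multiplicative.toAdd (Ψ ⟨x.1, hle x.2⟩) / c),
        Subgroup.zpow_mem_zpowers _ _⟩
      map_one' := ?_
      map_mul' := ?_ }, hfi, ?_⟩
  · apply Subtype.ext
    have e1 : Ψ (⟨(1 : F.ker.map K.subtype).1, hle (1 : F.ker.map K.subtype).2⟩ : K) = 1 := map_one Ψ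
    show g ^ (Multiplicative.toAdd (Ψ (⟨(1 : F.ker.map K.subtype).1,
      hle (1 : F.ker.map K.subtype).2⟩ : K)) / c) = 1
    rw [e1, toAdd_one, Int.zero_ediv, zpow_zero]
  · intro x y
    apply Subtype.ext
    have e1 : Ψ (⟨(x * y).1, hle (x * y).2⟩ : K) = Ψ ⟨x.1, hle x.2⟩ * Ψ ⟨y.1, hle y.2⟩ :=
      map_mul Ψ ⟨x.1, hle x.2⟩ ⟨y.1, hle y.2⟩
    show g ^ (Multiplicative.toAdd (Ψ (⟨(x * y).1, hle (x * y).2⟩ : K)) / c) =
      g ^ (Multiplicative.toAdd (Ψ ⟨x.1, hle x.2⟩) / c) *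
      g ^ (Multiplicative.toAdd (Ψ ⟨y.1, hle y.2⟩) / c)
    rw [e1, toAdd_mul, Int.add_ediv_of_dvd_left (hdiv x.1 x.2), zpow_add]
  · rintro ⟨x, j, rfl⟩
    apply Subtype.ext
    show g ^ (Multiplicative.toAdd (Ψ ⟨g ^ j, _⟩) / c) = g ^ j
    have e1 : Ψ ⟨g ^ j, K.zpow_mem hg j⟩ = Ψ ⟨g, hg⟩ ^ j := by
      rw [← map_zpow]
      rfl
    rw [e1, toAdd_zpow, ← hc, smul_eq_mul, Int.mul_ediv_cancel _ hc0]

/-- A normal subgroup of finite index which meets `⟨g⟩` trivially. -/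
theorem vr_of_fin {G : Type} [Group G] (N : Subgroup G) (hN : N.Normal) (hfi : N.FiniteIndex)
    (g : G) (hd : ∀ x ∈ Subgroup.zpowers g, x ∈ N → x = 1) : IsVR (Subgroup.zpowers g) := by
  set f : Subgroup.zpowers g →* G ⧸ N :=
    (QuotientGroup.mk' N).comp (Subgroup.zpowers g).subtype with hf
  have hinj : Function.Injective f := by
    rw [injective_iff_map_eq_one]
    intro x hx
    apply Subtype.ext
    exact hd x.1 x.2 ((QuotientGroup.eq_one_iff x.1).1 hx)
  have hNK : N ≤ f.range.comap (QuotientGroup.mk' N) := by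
    intro x hx
    rw [Subgroup.mem_comap]
    have : QuotientGroup.mk' N x = 1 := (QuotientGroup.eq_one_iff x).2 hx
    rw [this]
    exact one_mem _
  have hle : Subgroup.zpowers g ≤ f.range.comap (QuotientGroup.mk' N) := by
    intro x hx
    exact ⟨⟨x, hx⟩, rfl⟩
  let e : Subgroup.zpowers g ≃* f.range := MonoidHom.ofInjective hinj
  refine ⟨f.range.comap (QuotientGroup.mk' N), hle,
    e.symm.toMonoidHom.comp
      ((QuotientGroup.mk' N).subgroupComap f.range), Subgroup.finiteIndex_of_le hNK, ?_⟩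
  intro x
  have h1 : (e.symm.toMonoidHom.comp ((QuotientGroup.mk' N).subgroupComap f.range)) ⟨x.1, hle x.2⟩
      = e.symm ⟨f x, ⟨x, rfl⟩⟩ := rfl
  have h2 : e x = ⟨f x, ⟨x, rfl⟩⟩ := rfl
  rw [h1, ← h2, MulEquiv.symm_apply_apply]

section Act

variable {G E : Type} [Group G] {Φ : G →* Equiv.Perm E} {T : Zz →* Equiv.Perm E}

/-- The kernel of the action on the orbits of `T`. -/
def KN (hc : ∀ g z e, Φ g (T z e) = T z (Φ g e)) : Subgroup G where
  carrier := {h | ∀ e, ∃ z, Φ h e = T z e}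
  one_mem' := fun e => ⟨1, by simp⟩
  mul_mem' := by
    intro a b ha hb e
    obtain ⟨z, hz⟩ := hb e
    obtain ⟨w, hw⟩ := ha e
    refine ⟨z * w, ?_⟩
    rw [map_mul, Equiv.Perm.mul_apply, hz, hc, hw, map_mul, Equiv.Perm.mul_apply]
  inv_mem' := by
    intro a ha e
    obtain ⟨z, hz⟩ := ha e
    refine ⟨z⁻¹, ?_⟩
    have h1 : Φ a (T z⁻¹ e) = e := by
      rw [hc, hz, ← Equiv.Perm.mul_apply, ← map_mul, inv_mul_cancel, map_one, Equiv.Perm.one_apply]
    have h2 : Φ a⁻¹ (Φ a (T z⁻¹ e)) = T z⁻¹ e := by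
      rw [← Equiv.Perm.mul_apply, ← map_mul, inv_mul_cancel, map_one, Equiv.Perm.one_apply]
    rw [h1] at h2
    exact h2

theorem KN_normal (hc : ∀ g z e, Φ g (T z e) = T z (Φ g e)) : (KN hc).Normal := by
  refine ⟨fun n hn g e => ?_⟩
  obtain ⟨z, hz⟩ := hn (Φ g⁻¹ e)
  refine ⟨z, ?_⟩
  rw [map_mul, map_mul, Equiv.Perm.mul_apply, Equiv.Perm.mul_apply, hz, hc,
    ← Equiv.Perm.mul_apply (Φ g), ← map_mul, mul_inv_cancel, map_one, Equiv.Perm.one_apply]

theorem KN_fin (hc : ∀ g z e, Φ g (T z e) = T z (Φ g e))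
    (hs : ∃ s : Finset E, ∀ e, ∃ e' ∈ s, ∃ z, T z e' = e) : (KN hc).FiniteIndex := by
  obtain ⟨s, hs⟩ := hs
  choose r hr w hw using hs
  let F : G ⧸ KN hc → (s → s) := fun q y => ⟨r (Φ q.out y.1), hr _⟩
  have hF : Function.Injective F := by
    intro q q' h
    have h1 : q.out⁻¹ * q'.out ∈ KN hc := by
      intro e
      have h2 : r (Φ q.out (r e)) = r (Φ q'.out (r e)) :=
        congrArg Subtype.val (congrFun h ⟨r e, hr e⟩)
      have h3 := hw (Φ q.out (r e))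
      have h4 := hw (Φ q'.out (r e))
      rw [← h2] at h4
      set a := w (Φ q.out (r e))
      set b := w (Φ q'.out (r e))
      set y := r (Φ q.out (r e))
      -- `T a y = Φ q (r e)`, `T b y = Φ q' (r e)`
      have h5 : Φ q'.out (r e) = Φ q.out (T (b * a⁻¹) (r e)) := by
        rw [hc, ← h3, ← h4, ← Equiv.Perm.mul_apply, ← map_mul, inv_mul_cancel_right]
      have h6 : Φ (q.out⁻¹ * q'.out) (r e) = T (b * a⁻¹) (r e) := by
        rw [map_mul, Equiv.Perm.mul_apply, h5, ← Equiv.Perm.mul_apply, ← map_mul, inv_mul_cancel,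
          map_one, Equiv.Perm.one_apply]
      refine ⟨b * a⁻¹, ?_⟩
      rw [← hw e, hc, h6, ← Equiv.Perm.mul_apply, ← map_mul, mul_comm, map_mul,
        Equiv.Perm.mul_apply]
    have h7 := QuotientGroup.eq.2 h1
    rwa [QuotientGroup.out_eq', QuotientGroup.out_eq'] at h7
  have : Finite (G ⧸ KN hc) := Finite.of_injective F hF
  exact Subgroup.finiteIndex_of_finite_quotient

end Act

theorem t_critf : S_CRITF := by
  intro G E _ Φ T hc hs g hg hfo
  refine vr_of_fin (KN hc) (KN_normal hc) (KN_fin hc hs) g ?_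
  intro x hx hxN
  by_contra hne
  rw [← hfo.mem_powers_iff_mem_zpowers] at hx
  obtain ⟨n, rfl⟩ := hx
  obtain ⟨e, he⟩ := hg n hne
  obtain ⟨z, hz⟩ := hxN e
  exact he z hz

section Cyc

variable {G E : Type} [Group G] {Φ : G →* Equiv.Perm E} {T : Zz →* Equiv.Perm E} {n : ℕ}
  {v : Fin n → E}

/-- `k` permutes the orbits of the points `v i`. -/
def Mv (Φ : G →* Equiv.Perm E) (T : Zz →* Equiv.Perm E) (v : Fin n → E) (k : G)
    (σ : Equiv.Perm (Fin n)) (w : Fin n → Zz) : Prop := ∀ i, Φ k (v i) = T (w i) (v (σ i))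

/-- The stabiliser of the union of the orbits of the points `v i`. -/
def KS (hc : ∀ g z e, Φ g (T z e) = T z (Φ g e)) (v : Fin n → E) : Subgroup G where
  carrier := {k | ∃ σ w, Mv Φ T v k σ w}
  one_mem' := ⟨1, fun _ => 1, fun i => by simp⟩
  mul_mem' := by
    rintro a b ⟨σ, w, ha⟩ ⟨τ, u, hb⟩
    refine ⟨σ * τ, fun i => u i * w (τ i), fun i => ?_⟩
    rw [map_mul, Equiv.Perm.mul_apply, hb, hc, ha, map_mul, Equiv.Perm.mul_apply,
      Equiv.Perm.mul_apply]
  inv_mem' := by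
    rintro a ⟨σ, w, ha⟩
    refine ⟨σ⁻¹, fun i => (w (σ⁻¹ i))⁻¹, fun i => ?_⟩
    have h1 := ha (σ⁻¹ i)
    have hs : σ (σ⁻¹ i) = i := Equiv.apply_symm_apply σ i
    rw [hs] at h1
    have h2 : Φ a (T (w (σ⁻¹ i))⁻¹ (v (σ⁻¹ i))) = v i := by
      rw [hc, h1, ← Equiv.Perm.mul_apply, ← map_mul, inv_mul_cancel, map_one, Equiv.Perm.one_apply]
    have h3 : Φ a⁻¹ (Φ a (T (w (σ⁻¹ i))⁻¹ (v (σ⁻¹ i)))) = T (w (σ⁻¹ i))⁻¹ (v (σ⁻¹ i)) := by
      rw [← Equiv.Perm.mul_apply, ← map_mul, inv_mul_cancel, map_one, Equiv.Perm.one_apply]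
    rw [h2] at h3
    exact h3

theorem mv_uniq (hf : ∀ z e, T z e = e → z = 1) (hd : ∀ i j w, v i = T w (v j) → i = j) {k : G}
    {σ τ : Equiv.Perm (Fin n)} {w u : Fin n → Zz} (h1 : Mv Φ T v k σ w) (h2 : Mv Φ T v k τ u) :
    w = u := by
  funext i
  have h3 : T (w i) (v (σ i)) = T (u i) (v (τ i)) := (h1 i).symm.trans (h2 i)
  have h4 : v (σ i) = T ((w i)⁻¹ * u i) (v (τ i)) := by
    rw [map_mul, Equiv.Perm.mul_apply, ← h3, ← Equiv.Perm.mul_apply, ← map_mul, inv_mul_cancel,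
      map_one, Equiv.Perm.one_apply]
  have h5 := hd _ _ _ h4
  rw [h5] at h4
  have h6 := hf _ _ h4.symm
  exact (inv_mul_eq_one.1 h6)

/-- The total translation. -/
noncomputable def PS (hc : ∀ g z e, Φ g (T z e) = T z (Φ g e)) (v : Fin n → E)
    (hf : ∀ z e, T z e = e → z = 1) (hd : ∀ i j w, v i = T w (v j) → i = j) : KS hc v →* Zz where
  toFun k := ∏ i, (k.2.choose_spec.choose) i
  map_one' := by
    have h1 := (1 : KS hc v).2.choose_spec.choose_spec
    have h2 : Mv Φ T v (1 : G) 1 (fun _ => 1) := fun i => by simp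
    rw [mv_uniq hf hd h1 h2]
    simp
  map_mul' := by
    intro a b
    have h1 := (a * b).2.choose_spec.choose_spec
    have h2 := a.2.choose_spec.choose_spec
    have h3 := b.2.choose_spec.choose_spec
    set τ := b.2.choose
    have h4 : Mv Φ T v (a.1 * b.1) (a.2.choose * τ)
        (fun i => b.2.choose_spec.choose i * a.2.choose_spec.choose (τ i)) := by
      intro i
      rw [map_mul, Equiv.Perm.mul_apply, h3, hc, h2, map_mul, Equiv.Perm.mul_apply,
        Equiv.Perm.mul_apply]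
    rw [mv_uniq hf hd h1 h4, Finset.prod_mul_distrib, mul_comm]
    congr 1
    exact Equiv.prod_comp τ (fun i => a.2.choose_spec.choose i)

theorem PS_eq (hc : ∀ g z e, Φ g (T z e) = T z (Φ g e))
    (hf : ∀ z e, T z e = e → z = 1) (hd : ∀ i j w, v i = T w (v j) → i = j) {k : G}
    {σ : Equiv.Perm (Fin n)} {w : Fin n → Zz} (h : Mv Φ T v k σ w) :
    PS hc v hf hd ⟨k, σ, w, h⟩ = ∏ i, w i := by
  have h1 := (⟨k, σ, w, h⟩ : KS hc v).2.choose_spec.choose_spec
  have h2 := mv_uniq hf hd h1 h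
  show ∏ i, ((⟨k, σ, w, h⟩ : KS hc v).2.choose_spec.choose) i = _
  rw [h2]

end Cyc

theorem t_crit : S_CRIT := by
  intro G E _ Φ T hc hf hs g m e z hm hz
  have hex : ∃ n : ℕ, 0 < n ∧ ∃ w, Φ (g ^ n) e = T w e := by
    refine ⟨m, ?_, z, hm⟩
    rcases Nat.eq_zero_or_pos m with h | h
    · exfalso
      rw [h, pow_zero, map_one, Equiv.Perm.one_apply] at hm
      exact hz (hf z e hm.symm)
    · exact h
  classical
  set n := Nat.find hex with hn
  obtain ⟨hn0, w₀, hw₀⟩ := Nat.find_spec hex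
  rw [← hn] at hn0 hw₀
  have hmin : ∀ k : ℕ, 0 < k → k < n → ∀ w, Φ (g ^ k) e ≠ T w e := by
    intro k hk hkn w h
    exact Nat.find_min hex hkn ⟨hk, w, h⟩
  set v : Fin n → E := fun i => Φ (g ^ (i : ℕ)) e with hv
  -- powers
  have hpow : ∀ (a b : ℕ), Φ (g ^ (a + b)) e = Φ (g ^ a) (Φ (g ^ b) e) := by
    intro a b
    rw [pow_add, map_mul, Equiv.Perm.mul_apply]
  have hdis : ∀ (a b : ℕ), a < n → b < a → ∀ w, Φ (g ^ a) e ≠ T w (Φ (g ^ b) e) := by
    intro a b ha hb w h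
    have h1 : a = b + (a - b) := by omega
    rw [h1, hpow, ← hc] at h
    have h2 := (Φ (g ^ b)).injective h
    exact hmin (a - b) (by omega) (by omega) w h2
  have hd : ∀ i j w, v i = T w (v j) → i = j := by
    intro i j w h
    by_contra hne
    have hne' : (i : ℕ) ≠ (j : ℕ) := fun h => hne (Fin.ext h)
    rcases Nat.lt_or_gt_of_ne hne' with hlt | hlt
    · refine hdis j i j.2 hlt w⁻¹ ?_
      have h1 : Φ (g ^ (i : ℕ)) e = T w (Φ (g ^ (j : ℕ)) e) := h
      rw [h1, ← Equiv.Perm.mul_apply, ← map_mul, inv_mul_cancel, map_one, Equiv.Perm.one_apply]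
    · exact hdis i j i.2 hlt w h
  have hgn : ∀ w, Φ (g ^ n) e = T w e → w = w₀ := by
    intro w hw
    have h1 : T w e = T w₀ e := hw.symm.trans hw₀
    have h2 : T (w₀⁻¹ * w) e = e := by
      rw [map_mul, Equiv.Perm.mul_apply, h1, ← Equiv.Perm.mul_apply, ← map_mul, inv_mul_cancel,
        map_one, Equiv.Perm.one_apply]
    exact (inv_mul_eq_one.1 (hf _ _ h2)).symm
  -- `w₀` is not trivial
  have hw1 : w₀ ≠ 1 := by
    intro h
    have h1 : ∀ q : ℕ, Φ (g ^ (n * q)) e = e := by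
      intro q
      induction q with
      | zero => simp
      | succ q ih =>
        rw [Nat.mul_succ, hpow, hw₀, h, map_one, Equiv.Perm.one_apply, ih]
    have h2 : Φ (g ^ (m % n)) e = T z e := by
      rw [← hm]
      conv_rhs => rw [← Nat.mod_add_div m n, hpow, h1]
    rcases Nat.eq_zero_or_pos (m % n) with h3 | h3
    · rw [h3, pow_zero, map_one, Equiv.Perm.one_apply] at h2
      exact hz (hf z e h2.symm)
    · exact hmin _ h3 (Nat.mod_lt _ hn0) z h2
  -- `g` permutes the orbits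
  have hgs : ∀ i : Fin n, ∃ j w, Φ g (v i) = T w (v j) := by
    intro i
    have h1 : Φ g (v i) = Φ (g ^ ((i : ℕ) + 1)) e := by
      show Φ g (Φ (g ^ (i : ℕ)) e) = _
      rw [pow_succ', map_mul, Equiv.Perm.mul_apply]
    rcases Nat.lt_or_ge ((i : ℕ) + 1) n with h | h
    · exact ⟨⟨(i : ℕ) + 1, h⟩, 1, by rw [h1, map_one, Equiv.Perm.one_apply]⟩
    · have h2 : (i : ℕ) + 1 = n := by have := i.2; omega
      refine ⟨⟨0, hn0⟩, w₀, ?_⟩
      rw [h1, h2, hw₀]
      show T w₀ e = T w₀ (Φ (g ^ 0) e)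
      rw [pow_zero, map_one, Equiv.Perm.one_apply]
  choose s u hsu using hgs
  have hsinj : Function.Injective s := by
    intro i j hij
    have h1 := hsu i
    have h2 := hsu j
    rw [← hij] at h2
    refine hd i j (u i * (u j)⁻¹) ?_
    apply (Φ g).injective
    have h3 : T (u i * (u j)⁻¹) (T (u j) (v (s i))) = T (u i) (v (s i)) := by
      rw [← Equiv.Perm.mul_apply (T (u i * (u j)⁻¹)), ← map_mul, inv_mul_cancel_right]
    rw [hc, h2, h1, h3]
  have hMg : Mv Φ T v g (Equiv.ofBijective s (Finite.injective_iff_bijective.1 hsinj)) u := hsu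
  have hgK : g ∈ KS hc v := ⟨_, _, hMg⟩
  have hMgn : Mv Φ T v (g ^ n) 1 (fun _ => w₀) := by
    intro i
    show Φ (g ^ n) (Φ (g ^ (i : ℕ)) e) = T w₀ (Φ (g ^ (i : ℕ)) e)
    rw [← hpow, add_comm, hpow, hw₀, hc]
  have hle : KN hc ≤ KS hc v := by
    intro k hk
    choose w hw using fun i => hk (v i)
    exact ⟨1, w, hw⟩
  have := KN_fin hc hs
  refine vr_of_hom (KS hc v) (Subgroup.finiteIndex_of_le hle) (PS hc v hf hd) g hgK ?_
  intro h
  have h2 : PS hc v hf hd (⟨g, hgK⟩ ^ n) = 1 := by rw [map_pow, h, one_pow]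
  have h3 : PS hc v hf hd (⟨g, hgK⟩ ^ n) = ∏ _i : Fin n, w₀ := PS_eq hc hf hd hMgn
  rw [h3, Finset.prod_const, Finset.card_univ, Fintype.card_fin] at h2
  apply hw1
  have h4 : (n : ℤ) * Multiplicative.toAdd w₀ = 0 := by
    have := congrArg Multiplicative.toAdd h2
    rwa [toAdd_pow, toAdd_one, nsmul_eq_mul] at this
  have h5 : Multiplicative.toAdd w₀ = 0 := by
    rcases mul_eq_zero.1 h4 with h | h
    · exfalso
      have : n = 0 := by exact_mod_cast h
      omega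
    · exact h
  exact Multiplicative.toAdd.injective h5

end Pool.Agent.Y74.VR
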