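import Pool.Agent.Y35.VR.Stm

set_option autoImplicit false

/-!
Equivariant bijections from orbit representatives and the matching lemma.
-/

namespace Pool.Agent.Y74.VR

open Pool.Agent.Y35.VR

section Glue

variable {H E1 E2 I : Type} [Group H] {α1 : H →* Equiv.Perm E1} {α2 : H →* Equiv.Perm E2}
  {e1 : I → E1} {e2 : I → E2}

theorem key (d1 : ∀ i j h, α1 h (e1 i) = e1 j → i = j)
    (st : ∀ i h, α1 h (e1 i) = e1 i → α2 h (e2 i) = e2 i) {i j : I} {h h' : H}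
    (hh : α1 h (e1 i) = α1 h' (e1 j)) : α2 h (e2 i) = α2 h' (e2 j) := by
  have h1 : α1 (h'⁻¹ * h) (e1 i) = e1 j := by
    rw [map_mul, Equiv.Perm.mul_apply, hh, ← Equiv.Perm.mul_apply, ← map_mul, inv_mul_cancel,
      map_one, Equiv.Perm.one_apply]
  have hij : i = j := d1 i j _ h1
  subst hij
  have h2 := st i _ h1
  have h3 : α2 h' (α2 (h'⁻¹ * h) (e2 i)) = α2 h (e2 i) := by
    rw [← Equiv.Perm.mul_apply, ← map_mul, mul_inv_cancel_left]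
  rw [← h3, h2]

end Glue

theorem t_glue : S_GLUE := by
  intro H E1 E2 I _ α1 α2 e1 e2 s1 s2 d1 d2 st
  choose i1 h1 hi1 using s1
  choose i2 h2 hi2 using s2
  have k1 : ∀ (i : I) (h : H), α2 (h1 (α1 h (e1 i))) (e2 (i1 (α1 h (e1 i)))) = α2 h (e2 i) :=
    fun i h => key d1 (fun i h => (st i h).1) (hi1 _)
  have k2 : ∀ (i : I) (h : H), α1 (h2 (α2 h (e2 i))) (e1 (i2 (α2 h (e2 i)))) = α1 h (e1 i) :=
    fun i h => key d2 (fun i h => (st i h).2) (hi2 _)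
  refine ⟨⟨fun e => α2 (h1 e) (e2 (i1 e)), fun e => α1 (h2 e) (e1 (i2 e)), ?_, ?_⟩, ?_, ?_⟩
  · intro e
    show α1 (h2 (α2 (h1 e) (e2 (i1 e)))) (e1 (i2 (α2 (h1 e) (e2 (i1 e))))) = e
    rw [k2, hi1]
  · intro e
    show α2 (h1 (α1 (h2 e) (e1 (i2 e)))) (e2 (i1 (α1 (h2 e) (e1 (i2 e))))) = e
    rw [k1, hi2]
  · intro h e
    show α2 (h1 (α1 h e)) (e2 (i1 (α1 h e))) = α2 h (α2 (h1 e) (e2 (i1 e)))
    have h3 : α1 h e = α1 (h * h1 e) (e1 (i1 e)) := by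
      rw [map_mul, Equiv.Perm.mul_apply, hi1]
    rw [h3, k1, map_mul, Equiv.Perm.mul_apply]
  · intro i
    show α2 (h1 (e1 i)) (e2 (i1 (e1 i))) = e2 i
    have h3 := k1 i 1
    rwa [map_one, map_one, Equiv.Perm.one_apply, Equiv.Perm.one_apply] at h3

section Match

variable {P : Type} [Group P]

theorem mem_Gr {P' : Subgroup P} {χ : P' →* Zz} {n : P} {u : Zz} :
    (n, u) ∈ Gr P' χ ↔ ∃ h : n ∈ P', χ ⟨n, h⟩ = u := by
  unfold Gr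
  rw [MonoidHom.mem_range]
  constructor
  · rintro ⟨x, hx⟩
    have e1 : x.1 = n := congrArg Prod.fst hx
    have e2 : χ x = u := congrArg Prod.snd hx
    subst e1
    exact ⟨x.2, e2⟩
  · rintro ⟨h, rfl⟩
    exact ⟨⟨n, h⟩, rfl⟩

/-- first coordinates of the elements of a class -/
def fst {P' : Subgroup P} {C : Type} {χ : C → (P' →* Zz)}
    (e : (a : C) × ((P × Zz) ⧸ Gr P' (χ a))) : Set P :=
  {x | ∃ w : Zz, (QuotientGroup.mk (x, w) : (P × Zz) ⧸ Gr P' (χ e.1)) = e.2}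

theorem conj_mem {P' : Subgroup P} (hP : P'.Normal) (x p : P) : p⁻¹ * x * p ∈ P' ↔ x ∈ P' := by
  constructor
  · intro h
    have := hP.conj_mem _ h p
    simpa [mul_assoc] using this
  · intro h
    have := hP.conj_mem _ h p⁻¹
    simpa using this

end Match

section One

variable {P R I C : Type} [Group P] [Group R] {φ : R →* P} {P' : Subgroup P}
  {χ : C → (P' →* Zz)} {c : I → C} {p : I → P} {z : I → Zz}

/-- the action on the sigma type -/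
def al (φ : R →* P) (P' : Subgroup P) (χ : C → (P' →* Zz)) :
    R × Zz →* Equiv.Perm ((a : C) × ((P × Zz) ⧸ Gr P' (χ a))) :=
  (MulAction.toPermHom (P × Zz) _).comp (MonoidHom.prodMap φ (MonoidHom.id Zz))

theorem al_apply (r : R) (w : Zz) (e : (a : C) × ((P × Zz) ⧸ Gr P' (χ a))) :
    al φ P' χ (r, w) e = ((φ r, w) : P × Zz) • e := rfl

theorem one_surj (hc : ∀ (a : C) (x : P), ∃ i, c i = a ∧ ∃ r, ∃ n ∈ P', x = φ r * p i * n)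
    (e : (a : C) × ((P × Zz) ⧸ Gr P' (χ a))) :
    ∃ i h, al φ P' χ h ⟨c i, QuotientGroup.mk (p i, z i)⟩ = e := by
  obtain ⟨a, y⟩ := e
  obtain ⟨⟨x, w⟩, rfl⟩ := QuotientGroup.mk_surjective y
  obtain ⟨i, rfl, r, n, hn, rfl⟩ := hc a x
  refine ⟨i, (r, w * (χ (c i) ⟨n, hn⟩)⁻¹ * (z i)⁻¹), ?_⟩
  rw [al_apply, Sigma.smul_mk]
  congr 1
  show (QuotientGroup.mk (φ r * p i, w * (χ (c i) ⟨n, hn⟩)⁻¹ * (z i)⁻¹ * z i) :
    (P × Zz) ⧸ Gr P' (χ (c i))) = QuotientGroup.mk (φ r * p i * n, w)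
  rw [QuotientGroup.eq]
  have h : ((φ r * p i, w * (χ (c i) ⟨n, hn⟩)⁻¹ * (z i)⁻¹ * z i) : P × Zz)⁻¹ *
      (φ r * p i * n, w) = (n, χ (c i) ⟨n, hn⟩) := by
    refine Prod.ext ?_ ?_
    · show (φ r * p i)⁻¹ * (φ r * p i * n) = n
      group
    · show (w * (χ (c i) ⟨n, hn⟩)⁻¹ * (z i)⁻¹ * z i)⁻¹ * w = χ (c i) ⟨n, hn⟩
      rw [inv_mul_cancel_right, mul_inv_rev, inv_inv, mul_assoc, inv_mul_cancel, mul_one]
  rw [h]
  exact mem_Gr.2 ⟨hn, rfl⟩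

theorem one_disj {i j : I} {h : R × Zz}
    (he : al φ P' χ h ⟨c i, QuotientGroup.mk (p i, z i)⟩ = ⟨c j, QuotientGroup.mk (p j, z j)⟩) :
    c i = c j ∧ ∃ n ∈ P', p j = φ h.1 * p i * n := by
  refine ⟨congrArg Sigma.fst he, ?_⟩
  have h1 : p j ∈ fst (⟨c j, QuotientGroup.mk (p j, z j)⟩ :
      (a : C) × ((P × Zz) ⧸ Gr P' (χ a))) := ⟨z j, rfl⟩
  rw [← he] at h1
  obtain ⟨w, hw⟩ := h1
  have h2 : (QuotientGroup.mk (p j, w) : (P × Zz) ⧸ Gr P' (χ (c i))) =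
    QuotientGroup.mk (φ h.1 * p i, h.2 * z i) := hw
  have h3 := QuotientGroup.eq.1 h2.symm
  have h4 : ((φ h.1 * p i, h.2 * z i) : P × Zz)⁻¹ * (p j, w) =
    ((φ h.1 * p i)⁻¹ * p j, (h.2 * z i)⁻¹ * w) := rfl
  rw [h4] at h3
  obtain ⟨h5, -⟩ := mem_Gr.1 h3
  exact ⟨_, h5, by group⟩

theorem one_st {i : I} {h : R × Zz} :
    al φ P' χ h ⟨c i, QuotientGroup.mk (p i, z i)⟩ = ⟨c i, QuotientGroup.mk (p i, z i)⟩ ↔
      ∃ h' : (p i)⁻¹ * φ h.1 * p i ∈ P', χ (c i) ⟨_, h'⟩ = h.2 := by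
  have h1 : al φ P' χ h ⟨c i, QuotientGroup.mk (p i, z i)⟩ =
    ⟨c i, QuotientGroup.mk (φ h.1 * p i, h.2 * z i)⟩ := rfl
  rw [h1, ← mem_Gr]
  have h2 : ((p i, z i) : P × Zz)⁻¹ * (φ h.1 * p i, h.2 * z i) = ((p i)⁻¹ * φ h.1 * p i, h.2) := by
    refine Prod.ext ?_ ?_
    · show (p i)⁻¹ * (φ h.1 * p i) = (p i)⁻¹ * φ h.1 * p i
      rw [mul_assoc]
    · show (z i)⁻¹ * (h.2 * z i) = h.2
      rw [mul_comm h.2, inv_mul_cancel_left]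
  rw [← h2, ← QuotientGroup.eq]
  constructor
  · intro h
    have h3 := eq_of_heq (Sigma.mk.inj h).2
    exact h3.symm
  · intro h
    rw [h]

end One

theorem t_match (hG : S_GLUE) : S_MATCH := by
  intro P Q R _ _ _ φ ψ P' Q' hP hQ hPQ C1 C2 I χ θ c p d q z s1 s2 d1 d2 hv
  have a1 : ∀ i j h, al φ P' χ h ⟨c i, QuotientGroup.mk (p i, (1 : Zz))⟩ =
      ⟨c j, QuotientGroup.mk (p j, (1 : Zz))⟩ → i = j := by
    intro i j h he
    obtain ⟨h1, n, hn, h2⟩ := one_disj (z := fun _ => (1 : Zz)) he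
    exact d1 i j h.1 n hn h1 h2
  have a2 : ∀ i j h, al ψ Q' θ h ⟨d i, QuotientGroup.mk (q i, z i)⟩ =
      ⟨d j, QuotientGroup.mk (q j, z j)⟩ → i = j := by
    intro i j h he
    obtain ⟨h1, n, hn, h2⟩ := one_disj he
    exact d2 i j h.1 n hn h1 h2
  have a3 : ∀ i h, al φ P' χ h ⟨c i, QuotientGroup.mk (p i, (1 : Zz))⟩ =
      ⟨c i, QuotientGroup.mk (p i, (1 : Zz))⟩ ↔ al ψ Q' θ h ⟨d i, QuotientGroup.mk (q i, z i)⟩ =
      ⟨d i, QuotientGroup.mk (q i, z i)⟩ := by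
    intro i h
    rw [one_st (z := fun _ => (1 : Zz)), one_st]
    have h3 : (p i)⁻¹ * φ h.1 * p i ∈ P' ↔ (q i)⁻¹ * ψ h.1 * q i ∈ Q' := by
      rw [conj_mem hP, conj_mem hQ]
      exact hPQ h.1
    constructor
    · rintro ⟨h4, h5⟩
      exact ⟨h3.1 h4, by rw [← hv i h.1 h4 (h3.1 h4)]; exact h5⟩
    · rintro ⟨h4, h5⟩
      exact ⟨h3.2 h4, by rw [hv i h.1 (h3.2 h4) h4]; exact h5⟩
  obtain ⟨f, hf1, hf2⟩ := hG (R × Zz) _ _ I (al φ P' χ) (al ψ Q' θ)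
    (fun i => ⟨c i, QuotientGroup.mk (p i, (1 : Zz))⟩) (fun i => ⟨d i, QuotientGroup.mk (q i, z i)⟩)
    (one_surj (z := fun _ => (1 : Zz)) s1) (one_surj s2) a1 a2 a3
  exact ⟨f, fun r w e => hf1 (r, w) e, hf2⟩

end Pool.Agent.Y74.VR
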